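import Pool.Agent.W518.EG.Stms2

/-!
# EG-M: the double cover has a function of degree 7 (helper500)
-/

set_option autoImplicit false

namespace Pool.Agent.W500.EG.M

open IntermediateField


lemma key {F : Type*} [Field F] [CharZero F] (z W t y : F) (hy : y ^ 2 = z ^ 2 - 4) (hy0 : y ≠ 0)
    (hW : W ^ 2 = (z ^ 2 - 4) * (4 * z ^ 2 - 12 * z + 41))
    (ht : 162 * t ^ 7 = (z + 2) * (2 * z ^ 2 - 5 * z + 11) ^ 2 - 162 +
      (2 * z ^ 2 - 5 * z + 11) * (z + 1) * W) (ht0 : t ≠ 0) :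
    ∃ s x : F, s ≠ 0 ∧ x ≠ 0 ∧ z = s + s⁻¹ ∧ y = s - s⁻¹ ∧ t = s * x ^ 2 ∧
      9 * x ^ 7 * (s * x) ^ 7 - 2 * x * (s * x) ^ 6 + 3 * x ^ 2 * (s * x) ^ 5
        - 10 * x ^ 3 * (s * x) ^ 4 - 10 * x ^ 4 * (s * x) ^ 3 + 3 * x ^ 5 * (s * x) ^ 2
        - 2 * x ^ 6 * (s * x) + 9 = 0 := by
  have hs1 : (z + y) / 2 * ((z - y) / 2) = 1 := by
    linear_combination (-1 / 4 : F) * hy
  obtain ⟨s, hs⟩ : ∃ s, s = (z + y) / 2 := ⟨_, rfl⟩
  have hs0 : s ≠ 0 := by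
    rintro rfl
    rw [← hs, zero_mul] at hs1
    exact zero_ne_one hs1
  have hsi : s⁻¹ = (z - y) / 2 := by
    rw [← hs] at hs1
    field_simp
    linear_combination (-2 : F) * hs1
  have hz : z = s + s⁻¹ := by rw [hsi, hs]; ring
  have hyy : y = s - s⁻¹ := by rw [hsi, hs]; ring
  obtain ⟨w, hw⟩ : ∃ w, w = W * s / y := ⟨_, rfl⟩
  have hWw : W * s = w * y := by rw [hw]; field_simp
  have hw2 : w ^ 2 = 4 * s ^ 4 - 12 * s ^ 3 + 49 * s ^ 2 - 12 * s + 4 := by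
    have h1 : w ^ 2 * y ^ 2 = (4 * z ^ 2 - 12 * z + 41) * s ^ 2 * y ^ 2 := by
      have : w ^ 2 * y ^ 2 = (W * s) ^ 2 := by rw [hWw]; ring
      rw [this, mul_pow, hW, hy]; ring
    have h2 : w ^ 2 = (4 * z ^ 2 - 12 * z + 41) * s ^ 2 :=
      mul_right_cancel₀ (pow_ne_zero 2 hy0) h1
    rw [h2, hz]
    field_simp
    ring
  obtain ⟨P, hP⟩ : ∃ P, P = 2 * s ^ 5 - 3 * s ^ 4 + 10 * s ^ 3 + 10 * s ^ 2 - 3 * s + 2 :=
    ⟨_, rfl⟩
  have hP2 : P ^ 2 - 324 * s ^ 5 = (s ^ 3 - 1) ^ 2 * w ^ 2 := by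
    rw [hw2, hP]; ring
  obtain ⟨v, hv⟩ : ∃ v, v = (P + (s ^ 3 - 1) * w) / (18 * s ^ 6) := ⟨_, rfl⟩
  have hv1 : 18 * s ^ 6 * v = P + (s ^ 3 - 1) * w := by
    rw [hv]; field_simp
  have hs5 : (36 : F) * s ^ 5 ≠ 0 := mul_ne_zero (by norm_num) (pow_ne_zero 5 hs0)
  have hv2 : 9 * (1 + s ^ 7 * v ^ 2) = s * v * P := by
    have h1 : (18 * s ^ 6 * v - P) ^ 2 = P ^ 2 - 324 * s ^ 5 := by
      rw [hP2, hv1]; ring
    apply mul_left_cancel₀ hs5
    linear_combination h1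
  have hv0 : v ≠ 0 := by
    rintro h0
    rw [h0] at hv2
    norm_num at hv2
  have ht7 : t ^ 7 = s ^ 7 * v ^ 2 := by
    have h162 : (162 : F) * s ^ 5 ≠ 0 := mul_ne_zero (by norm_num) (pow_ne_zero 5 hs0)
    apply mul_left_cancel₀ h162
    have h1 : 324 * s ^ 12 * v ^ 2 = (P + (s ^ 3 - 1) * w) ^ 2 := by
      rw [← hv1]; ring
    have h2 : W = w * (s - s⁻¹) * s⁻¹ := by
      rw [← hyy, ← hWw]; field_simp
    have h3 : 162 * s ^ 5 * t ^ 7 = P ^ 2 - 162 * s ^ 5 + P * (s ^ 3 - 1) * w := by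
      have : 162 * s ^ 5 * t ^ 7 = s ^ 5 * (162 * t ^ 7) := by ring
      rw [this, ht, h2, hz, hP]
      field_simp
      ring
    rw [h3]
    linear_combination (-1 / 2 : F) * h1 + (1 / 2 : F) * hP2
  refine ⟨s, t ^ 4 / (s ^ 4 * v), hs0, ?_, hz, hyy, ?_, ?_⟩
  · exact div_ne_zero (pow_ne_zero _ ht0) (mul_ne_zero (pow_ne_zero _ hs0) hv0)
  · rw [div_pow]
    have h1 : (t ^ 4) ^ 2 = t * (s ^ 7 * v ^ 2) := by rw [← ht7]; ring
    rw [h1]
    field_simp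
  · set x := t ^ 4 / (s ^ 4 * v) with hx
    have hx7 : x ^ 7 = v := by
      rw [hx, div_pow]
      have h1 : (t ^ 4) ^ 7 = (s ^ 7 * v ^ 2) ^ 4 := by rw [← ht7]; ring
      rw [h1]
      field_simp
    have h1 : 9 * x ^ 7 * (s * x) ^ 7 - 2 * x * (s * x) ^ 6 + 3 * x ^ 2 * (s * x) ^ 5
        - 10 * x ^ 3 * (s * x) ^ 4 - 10 * x ^ 4 * (s * x) ^ 3 + 3 * x ^ 5 * (s * x) ^ 2
        - 2 * x ^ 6 * (s * x) + 9 = 9 * (1 + s ^ 7 * (x ^ 7) ^ 2) - s * x ^ 7 * P := by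
      rw [hP]; ring
    rw [h1, hx7, hv2]
    ring

lemma deg_le {F : Type*} [Field F] [Algebra ℂ F] (x Y : F)
    (hrel : 9 * x ^ 7 * Y ^ 7 - 2 * x * Y ^ 6 + 3 * x ^ 2 * Y ^ 5
        - 10 * x ^ 3 * Y ^ 4 - 10 * x ^ 4 * Y ^ 3 + 3 * x ^ 5 * Y ^ 2
        - 2 * x ^ 6 * Y + 9 = 0) (htop : ℂ⟮x, Y⟯ = ⊤) :
    IsIntegral ℂ⟮x⟯ Y ∧ FiniteDimensional ℂ⟮x⟯ F ∧ Module.finrank ℂ⟮x⟯ F ≤ 7 := by
  have : CharZero F := charZero_of_injective_algebraMap (algebraMap ℂ F).injective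
  set g : ℂ⟮x⟯ := AdjoinSimple.gen ℂ x with hg
  have hgx : algebraMap ℂ⟮x⟯ F g = x := AdjoinSimple.algebraMap_gen ℂ x
  set p : Polynomial ℂ⟮x⟯ := Polynomial.C (9 * g ^ 7) * Polynomial.X ^ 7
    - Polynomial.C (2 * g) * Polynomial.X ^ 6 + Polynomial.C (3 * g ^ 2) * Polynomial.X ^ 5
    - Polynomial.C (10 * g ^ 3) * Polynomial.X ^ 4 - Polynomial.C (10 * g ^ 4) * Polynomial.X ^ 3
    + Polynomial.C (3 * g ^ 5) * Polynomial.X ^ 2 - Polynomial.C (2 * g ^ 6) * Polynomial.X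
    + Polynomial.C 9 with hp
  have hpY : Polynomial.aeval Y p = 0 := by
    rw [hp]
    simp only [map_add, map_sub, map_mul, Polynomial.aeval_C, Polynomial.aeval_X, map_pow, hgx,
      map_ofNat]
    linear_combination hrel
  have hp0 : p.coeff 0 = 9 := by
    rw [hp]
    simp [Polynomial.coeff_X, Polynomial.coeff_C]
  have hpne : p ≠ 0 := by
    intro h
    rw [h, Polynomial.coeff_zero] at hp0
    have : CharZero ℂ⟮x⟯ := charZero_of_injective_algebraMap (algebraMap ℂ ℂ⟮x⟯).injective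
    norm_num at hp0
  have hdeg : p.natDegree ≤ 7 := by
    rw [hp]
    compute_degree
  have hint : IsIntegral ℂ⟮x⟯ Y := by
    rw [← isAlgebraic_iff_isIntegral]
    exact ⟨p, hpne, hpY⟩
  have htop' : ℂ⟮x⟯⟮Y⟯ = ⊤ := by
    have h1 : (ℂ⟮x⟯⟮Y⟯).restrictScalars ℂ = ⊤ := by
      rw [adjoin_simple_adjoin_simple, htop]
    rw [← restrictScalars_eq_top_iff (K := ℂ)]
    exact h1
  have hfin : FiniteDimensional ℂ⟮x⟯ ℂ⟮x⟯⟮Y⟯ := adjoin.finiteDimensional hint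
  have hfr : Module.finrank ℂ⟮x⟯ ℂ⟮x⟯⟮Y⟯ ≤ 7 := by
    rw [adjoin.finrank hint]
    exact (Polynomial.natDegree_le_of_dvd (minpoly.dvd _ _ hpY) hpne).trans hdeg
  rw [htop'] at hfin hfr
  rw [finrank_top'] at hfr
  refine ⟨hint, ?_, hfr⟩
  exact LinearEquiv.finiteDimensional (topEquiv (F := ℂ⟮x⟯) (E := F)).toLinearEquiv

theorem core {K : Type} [Field K] [Algebra ℂ K] (htr : Algebra.trdeg ℂ K = 1) (z W t : K)
    (hW : W ^ 2 = (z ^ 2 - 4) * (4 * z ^ 2 - 12 * z + 41))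
    (ht : 162 * t ^ 7 = (z + 2) * (2 * z ^ 2 - 5 * z + 11) ^ 2 - 162 +
      (2 * z ^ 2 - 5 * z + 11) * (z + 1) * W)
    (hgen : IntermediateField.adjoin ℂ {t, z} = ⊤) (hns : ¬ ∃ g : K, g ^ 2 = z ^ 2 - 4) :
    ∃ (K' : Type) (_ : Field K') (_ : Algebra ℂ K') (_ : Algebra K K')
      (_ : IsScalarTower ℂ K K'), ((⊤ : IntermediateField ℂ K').FG ∧ Algebra.trdeg ℂ K' = 1) ∧
      Module.finrank K K' = 2 ∧
      (∃ y : K', y ^ 2 = algebraMap K K' (z ^ 2 - 4) ∧ ∀ g : K, algebraMap K K' g ≠ y) ∧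
      ∃ x : K', Transcendental ℂ x ∧ Module.finrank ℂ⟮x⟯ K' ≤ 7 := by
  have hK0 : CharZero K := charZero_of_injective_algebraMap (algebraMap ℂ K).injective
  have hd0 : z ^ 2 - 4 ≠ 0 := fun h => hns ⟨0, by rw [h]; norm_num⟩
  have ht0 : t ≠ 0 := by
    rintro rfl
    have h1 : ((z + 2) * (2 * z ^ 2 - 5 * z + 11) ^ 2 - 162) ^ 2 -
        ((2 * z ^ 2 - 5 * z + 11) * (z + 1)) ^ 2 * W ^ 2 = 162 ^ 2 := by
      rw [hW]; ring
    have h2 : ((z + 2) * (2 * z ^ 2 - 5 * z + 11) ^ 2 - 162) ^ 2 -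
        ((2 * z ^ 2 - 5 * z + 11) * (z + 1)) ^ 2 * W ^ 2 = 0 := by
      linear_combination (-(((z + 2) * (2 * z ^ 2 - 5 * z + 11) ^ 2 - 162) -
        (2 * z ^ 2 - 5 * z + 11) * (z + 1) * W)) * ht
    rw [h2] at h1
    norm_num at h1
  set p : Polynomial K := Polynomial.X ^ 2 - Polynomial.C (z ^ 2 - 4) with hp
  have hirr : Irreducible p :=
    X_pow_sub_C_irreducible_of_prime Nat.prime_two fun b hb => hns ⟨b, hb⟩
  have : Fact (Irreducible p) := ⟨hirr⟩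
  have hmon : p.Monic := Polynomial.monic_X_pow_sub_C _ (by norm_num)
  have hnd : p.natDegree = 2 := Polynomial.natDegree_X_pow_sub_C
  set y : AdjoinRoot p := AdjoinRoot.root p with hy
  have hyy : y ^ 2 = algebraMap K (AdjoinRoot p) (z ^ 2 - 4) := by
    have h := AdjoinRoot.eval₂_root p
    rw [hp, Polynomial.eval₂_sub, Polynomial.eval₂_X_pow, Polynomial.eval₂_C, sub_eq_zero] at h
    exact h
  have hinj : Function.Injective (algebraMap K (AdjoinRoot p)) :=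
    (algebraMap K (AdjoinRoot p)).injective
  have hfinK : Module.Finite K (AdjoinRoot p) := hmon.finite_adjoinRoot
  have hfr2 : Module.finrank K (AdjoinRoot p) = 2 := by
    rw [(AdjoinRoot.powerBasis hirr.ne_zero).finrank, AdjoinRoot.powerBasis_dim, hnd]
  have hK'0 : CharZero (AdjoinRoot p) := charZero_of_injective_algebraMap hinj
  have hy0 : y ≠ 0 := by
    intro h
    rw [h] at hyy
    have h1 : algebraMap K (AdjoinRoot p) (z ^ 2 - 4) = 0 := by rw [← hyy]; norm_num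
    exact hd0 ((map_eq_zero _).1 h1)
  have htr' : Algebra.trdeg ℂ (AdjoinRoot p) = 1 := by
    have h1 := trdeg_add_eq ℂ K (A := AdjoinRoot p)
    have h3 : Algebra.IsAlgebraic K (AdjoinRoot p) := Algebra.IsAlgebraic.of_finite _ _
    rw [trdeg_eq_zero (R := K), add_zero, htr] at h1
    exact h1.symm
  set φ := algebraMap K (AdjoinRoot p) with hφ
  obtain ⟨s, x, hs0, hx0, hz, hys, hts, hrel⟩ := key (φ z) (φ W) (φ t) y
    (by rw [hyy, map_sub, map_pow, map_ofNat]) hy0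
    (by rw [← map_pow, hW]; simp only [map_mul, map_sub, map_add, map_pow, map_ofNat])
    (by
      have := congrArg φ ht
      simpa only [map_mul, map_sub, map_add, map_pow, map_ofNat, map_one] using this)
    ((map_ne_zero φ).2 ht0)
  have hE : ℂ⟮x, s * x⟯ = ⊤ := by
    set E : IntermediateField ℂ (AdjoinRoot p) := ℂ⟮x, s * x⟯ with hE
    have hxE : x ∈ E := subset_adjoin ℂ _ (by simp)
    have hYE : s * x ∈ E := subset_adjoin ℂ _ (by simp)
    have hsE : s ∈ E := by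
      have : s = (s * x) / x := by field_simp
      rw [this]
      exact div_mem hYE hxE
    have hzE : φ z ∈ E := by
      rw [hz]
      exact add_mem hsE (inv_mem hsE)
    have hyE : y ∈ E := by
      rw [hys]
      exact sub_mem hsE (inv_mem hsE)
    have htE : φ t ∈ E := by
      rw [hts]
      exact mul_mem hsE (pow_mem hxE 2)
    have hKE : ∀ a : K, φ a ∈ E := by
      have h1 : IntermediateField.adjoin ℂ {t, z} ≤
          E.comap (IsScalarTower.toAlgHom ℂ K (AdjoinRoot p)) := by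
        rw [adjoin_le_iff]
        rintro a ha
        rcases ha with rfl | ha
        · exact htE
        · rw [Set.mem_singleton_iff] at ha
          subst ha
          exact hzE
      rw [hgen] at h1
      intro a
      exact h1 (mem_top : a ∈ (⊤ : IntermediateField ℂ K))
    rw [eq_top_iff]
    have hall : ∀ a : AdjoinRoot p, a ∈ E := ?_
    · intro a _
      exact hall a
    intro a
    induction a using AdjoinRoot.induction_on with
    | ih q =>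
      induction q using Polynomial.induction_on with
      | C a => exact hKE a
      | add q r hq hr => rw [map_add]; exact add_mem hq hr
      | monomial n a _ =>
        rw [map_mul, map_pow]
        exact mul_mem (hKE a) (pow_mem hyE _)
  obtain ⟨hint, hfd, hfr⟩ := deg_le x (s * x) hrel hE
  refine ⟨AdjoinRoot p, inferInstance, inferInstance, inferInstance, inferInstance,
    ⟨?_, htr'⟩, hfr2, ⟨y, hyy, ?_⟩, x, ?_, hfr⟩
  · rw [← hE]
    exact fg_adjoin_of_finite (Set.toFinite _)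
  · intro g hg
    apply hns
    refine ⟨g, hinj ?_⟩
    rw [map_pow, hg, hyy]
  · intro halg
    have h1 : Algebra.IsAlgebraic ℂ ℂ⟮x⟯ := isAlgebraic_adjoin_simple halg.isIntegral
    have h2 : Algebra.IsAlgebraic ℂ⟮x⟯ (AdjoinRoot p) := Algebra.IsAlgebraic.of_finite _ _
    have h3 : Algebra.IsAlgebraic ℂ (AdjoinRoot p) := Algebra.IsAlgebraic.trans ℂ ℂ⟮x⟯ _
    rw [trdeg_eq_zero] at htr'
    exact zero_ne_one htr'

theorem s_M : Pool.Agent.W518.EG.S_M := by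
  intro K _ _ M hns
  obtain ⟨K', i1, i2, i3, i4, ⟨h1, h2⟩, h3, h4, h5⟩ := core M.curve.trdeg M.z M.W M.t M.W_sq M.t_pow
    M.gen hns
  exact ⟨K', i1, i2, i3, i4, ⟨h1, h2⟩, h3, h4, h5⟩

end Pool.Agent.W500.EG.M
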